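import Pool.Agent.H23.GF.Final
import Pool.Agent.H28.GR.Reg
import Pool.Agent.H21.GW.Cases0
import Pool.Agent.H21.GW.Size2
import Pool.Agent.H34.GC.P

/-!
# Classification of the perfect spanning sets of finite abelian groups (MP_684e05_nt, Q1)

For `s ≥ 2` every perfect `s`-spanning set with at least two elements of a finite abelian group `G`
has exactly two elements, `G` is cyclic of order `2 s² + 2 s + 1`, and the set is equivalent to
`{1, 2 s + 1}`. In particular there is no lattice tiling of `ℤ^m` by Lee spheres of radius `s` for
`s ≥ 2`, `m ≥ 3` (the lattice case of the Golomb-Welch conjecture).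

Proof: the cosets of the kernel of `ℤ^m → G`. Small sizes (`m` up to about `s² / 2`): helper28,
linear programming with the vectors of norm `s + 1, s + 2, s + 3`. Large sizes: `2 m` modulo `s + 1`
gives integrality of the number of vectors of norm `s + 1` in a coset; classes `0, -1`: helper71,
the other classes: helper23 (second moment), radii `3, ..., 8` and `s = 2`, `m = 2`: helper21.
-/

set_option autoImplicit false

namespace Pool.Agent.Results.MP_684e05_nt.Classification

open Pool.Agent.H23.GW

/-- Classification of the perfect `s`-spanning sets, `s ≥ 2`, with at least two elements. -/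
theorem result (G : Type) [AddCommGroup G] [Finite G] (A : Finset G) (s : ℕ) (hs : 2 ≤ s)
    (hA : 2 ≤ A.card) (h : PerfectSpanning A s) :
    A.card = 2 ∧
      ∃ e : G ≃+ ZMod (2 * s ^ 2 + 2 * s + 1), ∃ ε : G → ℤ, (∀ x, ε x = 1 ∨ ε x = -1) ∧
        A.image (fun x => ε x • e x) = {1, 2 * (s : ZMod (2 * s ^ 2 + 2 * s + 1)) + 1} := by
  have hcard : A.card = 2 := by
    by_contra hne
    have h3 : 3 ≤ A.card := by omega
    rcases Nat.eq_or_lt_of_le hs with h2 | h2
    · subst h2
      have := Pool.Agent.H21.GW.radius_two G A h
      omega
    · have := Fintype.ofFinite G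
      obtain ⟨⟨ev, hev⟩, -⟩ := Pool.Agent.H34.GC.T_P_holds G A s (by omega) h
      have hc : 3 ≤ Fintype.card A := by rwa [Fintype.card_coe]
      exact Pool.Agent.H23.GF.none hev (by omega) hc
  exact ⟨hcard, Pool.Agent.H21.GW.size_two G A s (by omega) h hcard⟩

end Pool.Agent.Results.MP_684e05_nt.Classification
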